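import Pool.Agent.E8helper50.SR.S5
import Pool.Agent.E8helper82.SR.SPN

/-!
# Project SR, part REP: representable superalgebras
-/

set_option autoImplicit false

universe u v

namespace Pool.Agent.E8helper91.SR

open Pool.Agent.E8helper50.SR

section gen

variable {L : Type u} [Field L] {C : Type u} [NonUnitalRing C] [Module L C] [IsScalarTower L C C]
  [SMulCommClass L C C]

theorem span_mul_mem {X Y : Set C} {Z : Submodule L C} (h : ∀ x ∈ X, ∀ y ∈ Y, x * y ∈ Z) {x y : C}
    (hx : x ∈ Submodule.span L X) (hy : y ∈ Submodule.span L Y) : x * y ∈ Z := by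
  induction hx using Submodule.span_induction with
  | mem x hx =>
    induction hy using Submodule.span_induction with
    | mem y hy => exact h x hx y hy
    | zero => rw [mul_zero]; exact Z.zero_mem
    | add a b _ _ ha hb => rw [mul_add]; exact Z.add_mem ha hb
    | smul c a _ ha => rw [mul_smul_comm]; exact Z.smul_mem c ha
  | zero => rw [zero_mul]; exact Z.zero_mem
  | add a b _ _ ha hb => rw [add_mul]; exact Z.add_mem ha hb
  | smul c a _ ha => rw [smul_mul_assoc]; exact Z.smul_mem c ha

/-- the span of a multiplicatively closed set -/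
def spanAlg (X : Set C) (h : ∀ x ∈ X, ∀ y ∈ X, x * y ∈ X) : NonUnitalSubalgebra L C :=
  { Submodule.span L X with
    mul_mem' := fun {_ _} ha hb =>
      span_mul_mem (fun x hx y hy => Submodule.subset_span (h x hx y hy)) ha hb }

theorem mem_spanAlg {X : Set C} {h : ∀ x ∈ X, ∀ y ∈ X, x * y ∈ X} {x : C} :
    x ∈ spanAlg (L := L) X h ↔ x ∈ Submodule.span L X := Iff.rfl

end gen

theorem wprod_map {R S : Type u} [Mul R] [Mul S] (e : R → S) (h : ∀ x y, e (x * y) = e x * e y) :
    ∀ (n : ℕ) (x : Fin (n + 1) → R), wprod n (fun i => e (x i)) = e (wprod n x)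
  | 0, x => rfl
  | n + 1, x => by
    change wprod n (fun i : Fin (n + 1) => e (x i.castSucc)) * e (x (Fin.last (n + 1))) =
      e (wprod n (fun i : Fin (n + 1) => x i.castSucc) * x (Fin.last (n + 1)))
    rw [h, wprod_map e h n fun i => x i.castSucc]

theorem sev_map {F : Type u} [Field F] {L : Type u} [Field L] [Algebra F L] {R S : Type u}
    [NonUnitalRing R] [Module F R] [NonUnitalRing S] [Module L S] (e : R → S)
    (hadd : ∀ x y, e (x + y) = e x + e y) (hmul : ∀ x y, e (x * y) = e x * e y)
    (hsm : ∀ (c : F) (x : R), e (c • x) = algebraMap F L c • e x) (f : MPoly F)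
    (p : Fin (f.n + 1) → ZMod 2) (a : Fin (f.n + 1) → R) :
    sev (f.map : MPoly L) p (fun i => e (a i)) = e (sev f p a) := by
  have h0 : e 0 = 0 := by
    have := hadd 0 0
    rw [add_zero] at this
    exact left_eq_add.1 this
  let E : R →+ S := { toFun := e, map_zero' := h0, map_add' := hadd }
  change sev (f.map : MPoly L) p (fun i => e (a i)) = E (sev f p a)
  unfold sev
  rw [map_sum]
  refine Finset.sum_congr rfl fun σ _ => ?_
  change (algebraMap F L (f.c σ) * ((ksgn p σ : ℤ) : L)) • wprod f.n (fun i => e (a (σ i))) =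
    e ((f.c σ * ((ksgn p σ : ℤ) : F)) • wprod f.n (fun i => a (σ i)))
  rw [hsm, wprod_map e hmul f.n fun i => a (σ i), map_mul, map_intCast]

theorem t_REP : S_REP.{u} := by
  intro F _ A hA
  obtain ⟨L, _, _, C, e, hfin, einj, eadd, emul, esmul, egr⟩ := hA
  have hcl : ∀ x ∈ Set.range e, ∀ y ∈ Set.range e, x * y ∈ Set.range e := by
    rintro _ ⟨x, rfl⟩ _ ⟨y, rfl⟩
    exact ⟨x * y, emul x y⟩
  let T : NonUnitalSubalgebra L C := spanAlg (Set.range e) hcl
  let sub : T →ₗ[L] C := T.toSubmodule.subtype
  have hsub : Function.Injective sub := Subtype.val_injective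
  let H : ZMod 2 → Submodule L C := fun i => Submodule.span L (e '' (A.gr i : Set A))
  have hHC : ∀ i, H i ≤ C.gr i := by
    intro i
    refine Submodule.span_le.2 ?_
    rintro _ ⟨x, hx, rfl⟩
    exact egr i x hx
  have hHT : ∀ i, ∀ x ∈ H i, x ∈ T := by
    intro i x hx
    exact Submodule.span_mono (Set.image_subset_range e _) hx
  have hcomp : IsCompl ((H 0).comap sub) ((H 1).comap sub) := by
    constructor
    · rw [Submodule.disjoint_def]
      intro x h0 h1
      apply hsub
      rw [map_zero]
      exact (Submodule.disjoint_def.1 C.compl.disjoint) _ (hHC 0 h0) (hHC 1 h1)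
    · rw [codisjoint_iff, eq_top_iff]
      rintro ⟨x, hx⟩ _
      have h1 : x ∈ H 0 ⊔ H 1 := by
        have h2 : Submodule.span L (Set.range e) ≤ H 0 ⊔ H 1 := by
          refine Submodule.span_le.2 ?_
          rintro _ ⟨a, rfl⟩
          have h3 : a ∈ A.gr 0 ⊔ A.gr 1 := by
            rw [A.compl.sup_eq_top]
            exact Submodule.mem_top
          obtain ⟨a0, h0, a1, h1, rfl⟩ := Submodule.mem_sup.1 h3
          rw [eadd]
          exact Submodule.add_mem_sup (Submodule.subset_span ⟨a0, h0, rfl⟩)
            (Submodule.subset_span ⟨a1, h1, rfl⟩)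
        exact h2 hx
      obtain ⟨y, hy, z, hz, rfl⟩ := Submodule.mem_sup.1 h1
      exact Submodule.mem_sup.2 ⟨⟨y, hHT 0 y hy⟩, hy, ⟨z, hHT 1 z hz⟩, hz, rfl⟩
  let C2 : SAlg L :=
    { carrier := T
      gr := fun i => (H i).comap sub
      compl := hcomp
      mul_mem := by
        intro i j a b ha hb
        refine span_mul_mem (Z := H (i + j)) ?_ ha hb
        rintro _ ⟨x, hx, rfl⟩ _ ⟨y, hy, rfl⟩
        rw [← emul]
        exact Submodule.subset_span ⟨x * y, A.mul_mem i j x y hx hy, rfl⟩ }
  let e' : A → C2 := fun a => (⟨e a, Submodule.subset_span ⟨a, rfl⟩⟩ : T)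
  have e'add : ∀ x y, e' (x + y) = e' x + e' y := fun x y => Subtype.ext (eadd x y)
  have e'mul : ∀ x y, e' (x * y) = e' x * e' y := fun x y => Subtype.ext (emul x y)
  have e'smul : ∀ (c : F) (x : A), e' (c • x) = algebraMap F L c • e' x := fun c x =>
    Subtype.ext (esmul c x)
  have e'inj : Function.Injective e' := fun x y h => einj (congrArg Subtype.val h)
  have e'gr : ∀ (i : ZMod 2), ∀ x ∈ A.gr i, e' x ∈ C2.gr i := fun i x hx =>
    Submodule.subset_span ⟨x, hx, rfl⟩
  have e'0 : e' 0 = 0 := by
    have := e'add 0 0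
    rw [add_zero] at this
    exact left_eq_add.1 this
  refine ⟨L, inferInstance, inferInstance, C2, ?_, fun f => ⟨fun h => ?_, fun h => ?_⟩⟩
  · exact Module.Finite.of_injective sub hsub
  · by_contra hns
    obtain ⟨p, a, ha, hne⟩ := Pool.Agent.E8helper82.SR.t_SPN L C2 (f.map : MPoly L)
      (fun q => e' '' (A.gr q : Set A)) (fun q => by
        intro x hx
        have h1 : (sub x : C) ∈ (Submodule.span L (e' '' (A.gr q : Set A))).map sub := by
          rw [Submodule.map_span, ← Set.image_comp]
          exact hx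
        obtain ⟨y, hy, hxy⟩ := h1
        rw [← hsub hxy]
        exact hy) (fun q => by
        rintro _ ⟨x, hx, rfl⟩
        exact e'gr q x hx) hns
    choose b hb hb' using ha
    have h1 : a = fun i => e' (b i) := funext fun i => (hb' i).symm
    apply hne
    rw [h1]
    have h2 := sev_map e' e'add e'mul e'smul f p b
    have h3 := h p b hb
    rw [h3, e'0] at h2
    exact h2
  · intro p a ha
    apply e'inj
    rw [← sev_map e' e'add e'mul e'smul f p a, e'0]
    exact h p (fun i => e' (a i)) fun i => e'gr _ _ (ha i)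

end Pool.Agent.E8helper91.SR
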